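import Pool.Agent.H78.STN.Stmts

set_option autoImplicit false

open Polynomial

namespace Pool.STN

theorem pzq_map : Pz.map (Int.castRingHom ℚ) = Pq := by
  unfold Pz Pq
  simp only [Polynomial.map_mul, Polynomial.map_pow, Polynomial.map_sub, Polynomial.map_X,
    Polynomial.map_C]
  norm_num

theorem pzq_deg : Pz.natDegree ≤ 6 := by
  unfold Pz
  have h1 : ((X - C 6 : ℤ[X]) ^ 3).natDegree ≤ 3 := by
    refine Polynomial.natDegree_pow_le.trans ?_
    rw [Polynomial.natDegree_X_sub_C]
  have h2 : ((X - C 8 : ℤ[X]) ^ 2).natDegree ≤ 2 := by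
    refine Polynomial.natDegree_pow_le.trans ?_
    rw [Polynomial.natDegree_X_sub_C]
  have h3 : (X - C 9 : ℤ[X]).natDegree ≤ 1 := by
    rw [Polynomial.natDegree_X_sub_C]
  refine (Polynomial.natDegree_mul_le).trans ?_
  have h4 := (Polynomial.natDegree_mul_le (p := (X - C 6 : ℤ[X]) ^ 3) (q := (X - C 8) ^ 2))
  omega

theorem PZQ_thm : PZQStmt := by
  intro n j
  constructor
  · rw [← pzq_map, ← Polynomial.map_pow, Polynomial.coeff_map]
    rfl
  · intro h
    apply Polynomial.coeff_eq_zero_of_natDegree_lt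
    have h1 : (Pz ^ n).natDegree ≤ n * Pz.natDegree := Polynomial.natDegree_pow_le
    have h2 := pzq_deg
    have h3 : n * Pz.natDegree ≤ n * 6 := Nat.mul_le_mul_left n h2
    omega

end Pool.STN
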